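import Pool.Agent.W555.KS.Defs

/-!
KS-GCNT and KS-GALL: counting Gale sets.
-/

set_option autoImplicit false

namespace Pool.Agent.W410.KalSar

open Finset
open Pool.Agent.W555.KS

/-- shift by one -/
def sh (S : Finset ℕ) : Finset ℕ := S.image Nat.succ

theorem zero_notMem_sh (S : Finset ℕ) : 0 ∉ sh S := by
  simp [sh]

theorem succ_mem_sh {S : Finset ℕ} {t : ℕ} : t + 1 ∈ sh S ↔ t ∈ S := by
  simp [sh]

theorem card_sh (S : Finset ℕ) : (sh S).card = S.card :=
  card_image_of_injective _ Nat.succ_injective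

theorem card_ins (S : Finset ℕ) : (insert 0 (sh S)).card = S.card + 1 := by
  rw [card_insert_of_notMem (zero_notMem_sh S), card_sh]

theorem cnt_lt (S : Finset ℕ) (t : ℕ) :
    ((sh S).filter (fun s => s < t + 1)).card = (S.filter (fun s => s < t)).card := by
  unfold sh
  rw [filter_image, card_image_of_injective _ Nat.succ_injective]
  congr 1
  refine filter_congr fun s _ => ?_
  simp

theorem cnt_le (S : Finset ℕ) (t : ℕ) :
    ((sh S).filter (fun s => s ≤ t + 1)).card = (S.filter (fun s => s ≤ t)).card := by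
  unfold sh
  rw [filter_image, card_image_of_injective _ Nat.succ_injective]
  congr 1
  refine filter_congr fun s _ => ?_
  simp

theorem cnt_lt_ins (S : Finset ℕ) (t : ℕ) :
    ((insert 0 (sh S)).filter (fun s => s < t + 1)).card =
      (S.filter (fun s => s < t)).card + 1 := by
  rw [filter_insert, if_pos (Nat.succ_pos t), card_insert_of_notMem, cnt_lt]
  exact fun h => zero_notMem_sh S (mem_filter.mp h).1

theorem cnt_le_ins (S : Finset ℕ) (t : ℕ) :
    ((insert 0 (sh S)).filter (fun s => s ≤ t + 1)).card =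
      (S.filter (fun s => s ≤ t)).card + 1 := by
  rw [filter_insert, if_pos (Nat.zero_le _), card_insert_of_notMem, cnt_le]
  exact fun h => zero_notMem_sh S (mem_filter.mp h).1

theorem cnt_lt_zero (S : Finset ℕ) : (S.filter (fun s => s < 0)).card = 0 := by
  simp

theorem cnt_le_zero (S : Finset ℕ) : ((sh S).filter (fun s => s ≤ 0)).card = 0 := by
  rw [card_eq_zero, filter_eq_empty_iff]
  intro x hx hx0
  have : x = 0 := by omega
  exact zero_notMem_sh S (this ▸ hx)

theorem cnt_le_ins_zero (S : Finset ℕ) :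
    ((insert 0 (sh S)).filter (fun s => s ≤ 0)).card = 1 := by
  rw [filter_insert, if_pos le_rfl, card_insert_of_notMem, cnt_le_zero]
  exact fun h => zero_notMem_sh S (mem_filter.mp h).1

theorem stepA {n d ε : ℕ} {S : Finset ℕ} (h : GaleE n d ε S) (hε : Even ε) :
    GaleE (n + 1) d ε (sh S) := by
  obtain ⟨T, hT, hE⟩ := h
  refine ⟨sh T, by rw [card_sh, card_sh]; exact hT, fun t ht htS => ?_⟩
  rcases t with _ | t
  · rw [cnt_lt_zero, cnt_le_zero]
    exact hε
  · rw [cnt_lt, cnt_le]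
    exact hE t (by omega) fun h => htS (succ_mem_sh.mpr h)

theorem stepB {n d ε : ℕ} {S : Finset ℕ} (h : GaleE n d (ε + 1) S) :
    GaleE (n + 1) (d + 1) ε (insert 0 (sh S)) := by
  obtain ⟨T, hT, hE⟩ := h
  refine ⟨sh T, by rw [card_ins, card_sh]; omega, fun t ht htS => ?_⟩
  rcases t with _ | t
  · exact absurd (mem_insert_self 0 _) htS
  · rw [cnt_lt_ins, cnt_le]
    have := hE t (by omega) fun h => htS (mem_insert_of_mem (succ_mem_sh.mpr h))
    rw [Nat.even_iff] at this ⊢
    omega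

theorem stepC {n d ε : ℕ} {S : Finset ℕ} (h : GaleE n d (ε + 1) S) (hε : Odd ε) :
    GaleE (n + 1) (d + 1) ε (sh S) := by
  obtain ⟨T, hT, hE⟩ := h
  refine ⟨insert 0 (sh T), by rw [card_ins, card_sh]; omega, fun t ht htS => ?_⟩
  rcases t with _ | t
  · rw [cnt_lt_zero, cnt_le_ins_zero]
    exact hε.add_one
  · rw [cnt_lt, cnt_le_ins]
    have := hE t (by omega) fun h => htS (succ_mem_sh.mpr h)
    rw [Nat.even_iff] at this ⊢
    omega

theorem par {n d ε : ℕ} {S : Finset ℕ} (h : GaleE n d ε S) : GaleE n d (ε + 2) S := by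
  obtain ⟨T, hT, hE⟩ := h
  refine ⟨T, hT, fun t ht htS => ?_⟩
  have h1 := hE t ht htS
  rw [Nat.even_iff] at h1 ⊢
  omega

theorem mono {n d ε : ℕ} {S : Finset ℕ} (h : GaleE n d ε S) : GaleE n (d + 1) ε S := by
  obtain ⟨T, hT, hE⟩ := h
  exact ⟨T, by omega, hE⟩

theorem gale_iff {n d : ℕ} {S : Finset ℕ} : Gale n d S ↔ ∃ ε, GaleE n d ε S :=
  ⟨fun ⟨T, ε, h1, h2⟩ => ⟨ε, T, h1, h2⟩, fun ⟨ε, T, h1, h2⟩ => ⟨T, ε, h1, h2⟩⟩

open Classical in
/-- number of `k`-subsets with a property -/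
noncomputable def cnt (n k : ℕ) (P : Finset ℕ → Prop) : ℕ :=
  ((powersetCard k (range n)).filter P).card

theorem cnt_eq (n k : ℕ) (P : Finset ℕ → Prop) :
    {S : Finset ℕ | S ⊆ range n ∧ S.card = k ∧ P S}.ncard = cnt n k P := by
  classical
  unfold cnt
  rw [← Set.ncard_coe_finset]
  congr 1
  ext S
  simp only [Set.mem_ofPred_eq, coe_filter, mem_powersetCard]
  tauto

theorem sh_sub {n : ℕ} {S : Finset ℕ} (h : S ⊆ range n) : sh S ⊆ range (n + 1) := by
  intro x hx
  obtain ⟨y, hy, rfl⟩ := mem_image.mp hx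
  have := mem_range.mp (h hy)
  exact mem_range.mpr (by omega)

theorem sh_inj : Function.Injective sh := fun S T h => by
  ext t
  rw [← succ_mem_sh, h, succ_mem_sh]

theorem ins_inj : Function.Injective (fun S => insert 0 (sh S)) := fun S T h => by
  ext t
  have h1 : t + 1 ∈ insert 0 (sh S) ↔ t ∈ S := by
    rw [mem_insert, succ_mem_sh]; simp
  have h2 : t + 1 ∈ insert 0 (sh T) ↔ t ∈ T := by
    rw [mem_insert, succ_mem_sh]; simp
  simp only at h
  rw [← h1, h, h2]

theorem cnt_step0 {n k : ℕ} {P Q : Finset ℕ → Prop} (h : ∀ S, Q S → P (sh S)) :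
    cnt n k Q ≤ cnt (n + 1) k P := by
  classical
  unfold cnt
  rw [← card_image_of_injective ((powersetCard k (range n)).filter Q) sh_inj]
  refine card_le_card fun S hS => ?_
  obtain ⟨S', hS', rfl⟩ := mem_image.mp hS
  obtain ⟨h1, h2⟩ := mem_filter.mp hS'
  obtain ⟨h3, h4⟩ := mem_powersetCard.mp h1
  exact mem_filter.mpr ⟨mem_powersetCard.mpr ⟨sh_sub h3, by rw [card_sh, h4]⟩, h _ h2⟩

theorem cnt_step1 {n k : ℕ} {P Q R : Finset ℕ → Prop} (h : ∀ S, Q S → P (sh S))
    (h' : ∀ S, R S → P (insert 0 (sh S))) :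
    cnt n (k + 1) Q + cnt n k R ≤ cnt (n + 1) (k + 1) P := by
  classical
  unfold cnt
  rw [← card_image_of_injective ((powersetCard (k + 1) (range n)).filter Q) sh_inj,
    ← card_image_of_injective ((powersetCard k (range n)).filter R) ins_inj,
    ← card_union_of_disjoint]
  · refine card_le_card fun S hS => ?_
    rcases mem_union.mp hS with hS | hS
    · obtain ⟨S', hS', rfl⟩ := mem_image.mp hS
      obtain ⟨h1, h2⟩ := mem_filter.mp hS'
      obtain ⟨h3, h4⟩ := mem_powersetCard.mp h1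
      exact mem_filter.mpr ⟨mem_powersetCard.mpr ⟨sh_sub h3, by rw [card_sh, h4]⟩, h _ h2⟩
    · obtain ⟨S', hS', rfl⟩ := mem_image.mp hS
      obtain ⟨h1, h2⟩ := mem_filter.mp hS'
      obtain ⟨h3, h4⟩ := mem_powersetCard.mp h1
      refine mem_filter.mpr ⟨mem_powersetCard.mpr ⟨?_, by rw [card_ins, h4]⟩, h' _ h2⟩
      intro x hx
      rcases mem_insert.mp hx with rfl | hx
      · exact mem_range.mpr (Nat.succ_pos n)
      · exact sh_sub h3 hx
  · rw [disjoint_left]
    intro S hS hS'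
    obtain ⟨S₁, -, rfl⟩ := mem_image.mp hS
    obtain ⟨S₂, -, h2⟩ := mem_image.mp hS'
    refine zero_notMem_sh S₁ ?_
    rw [← h2]
    exact mem_insert_self _ _

theorem cnt_zero (k : ℕ) (P : Finset ℕ → Prop) (hP : P ∅) :
    (if k = 0 then 1 else 0) ≤ cnt 0 k P := by
  classical
  split_ifs with h
  · unfold cnt
    refine card_pos.mpr ⟨∅, mem_filter.mpr ⟨mem_powersetCard.mpr ⟨by simp, by simp [h]⟩, hP⟩⟩
  · exact Nat.zero_le _

theorem galeE_zero (d ε : ℕ) : GaleE 0 d ε ∅ :=
  ⟨∅, by simp, fun t ht => absurd ht (Nat.not_lt_zero t)⟩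

theorem cB1 (n k : ℕ) : cB (n + 1) 0 k = cB n 0 k := by simp [cB]
theorem cB2 (n d : ℕ) : cB (n + 1) (d + 1) 0 = cB n (d + 1) 0 := by simp [cB]
theorem cB3 (n d k : ℕ) : cB (n + 1) (d + 1) (k + 1) = cB n (d + 1) (k + 1) + cC n d k := by
  simp [cB]
theorem cC1 (n k : ℕ) : cC (n + 1) 0 k = 0 := by simp [cC]
theorem cC2 (n d : ℕ) : cC (n + 1) (d + 1) 0 = cB n d 0 := by simp [cC]
theorem cC3 (n d k : ℕ) : cC (n + 1) (d + 1) (k + 1) = cB n d (k + 1) + cB n d k := by
  simp [cC]
theorem cA1 (n k : ℕ) : cA (n + 1) 0 k = cB n 0 k := by simp [cA]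
theorem cA2 (n d : ℕ) : cA (n + 1) (d + 1) 0 = cB n (d + 1) 0 := by simp [cA]
theorem cA3 (n d k : ℕ) : cA (n + 1) (d + 1) (k + 1) = cB n (d + 1) (k + 1) + cA n d k := by
  simp [cA]

theorem main (n : ℕ) : ∀ d k : ℕ, cB n d k ≤ cnt n k (GaleE n d 0) ∧
    cC n d k ≤ cnt n k (GaleE n d 1) ∧ cA n d k ≤ cnt n k (Gale n d) := by
  induction n with
  | zero =>
    intro d k
    refine ⟨?_, ?_, ?_⟩
    · rw [cB]
      exact cnt_zero k _ (galeE_zero d 0)
    · rw [cC]
      exact cnt_zero k _ (galeE_zero d 1)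
    · rw [cA]
      exact cnt_zero k _ (gale_iff.mpr ⟨0, galeE_zero d 0⟩)
  | succ n ih =>
    intro d k
    have s0 : ∀ d S, GaleE n d 0 S → GaleE (n + 1) d 0 (sh S) :=
      fun d S h => stepA h (by simp)
    have s0' : ∀ d S, GaleE n d 1 S → GaleE (n + 1) (d + 1) 0 (insert 0 (sh S)) :=
      fun d S h => stepB h
    have s1 : ∀ d S, GaleE n d 0 S → GaleE (n + 1) (d + 1) 1 (sh S) :=
      fun d S h => stepC (par h) odd_one
    have s1' : ∀ d S, GaleE n d 0 S → GaleE (n + 1) (d + 1) 1 (insert 0 (sh S)) :=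
      fun d S h => stepB (par h)
    have s2 : ∀ d S, GaleE n d 0 S → Gale (n + 1) d (sh S) :=
      fun d S h => gale_iff.mpr ⟨0, s0 d S h⟩
    have s2' : ∀ d S, Gale n d S → Gale (n + 1) (d + 1) (insert 0 (sh S)) := by
      intro d S h
      obtain ⟨ε, h⟩ := gale_iff.mp h
      exact gale_iff.mpr ⟨ε + 1, stepB (par h)⟩
    refine ⟨?_, ?_, ?_⟩
    · rcases d with _ | d
      · rw [cB1]
        exact (ih 0 k).1.trans (cnt_step0 (s0 0))
      · rcases k with _ | k
        · rw [cB2]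
          exact (ih (d + 1) 0).1.trans (cnt_step0 (s0 (d + 1)))
        · rw [cB3]
          exact (Nat.add_le_add (ih (d + 1) (k + 1)).1 (ih d k).2.1).trans
            (cnt_step1 (s0 (d + 1)) (s0' d))
    · rcases d with _ | d
      · rw [cC1]
        exact Nat.zero_le _
      · rcases k with _ | k
        · rw [cC2]
          exact (ih d 0).1.trans (cnt_step0 (s1 d))
        · rw [cC3]
          exact (Nat.add_le_add (ih d (k + 1)).1 (ih d k).1).trans (cnt_step1 (s1 d) (s1' d))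
    · rcases d with _ | d
      · rw [cA1]
        exact (ih 0 k).1.trans (cnt_step0 (s2 0))
      · rcases k with _ | k
        · rw [cA2]
          exact (ih (d + 1) 0).1.trans (cnt_step0 (s2 (d + 1)))
        · rw [cA3]
          exact (Nat.add_le_add (ih (d + 1) (k + 1)).1 (ih d k).2.2).trans
            (cnt_step1 (s2 (d + 1)) (s2' d))

theorem gcnt : StGCnt := by
  intro n d k
  rw [cnt_eq]
  exact (main n d k).2.2

/-- every subset is a shift -/
theorem exists_sh {n : ℕ} {S : Finset ℕ} (h : S ⊆ range (n + 1)) :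
    ∃ S' ⊆ range n, (0 ∉ S ∧ S = sh S') ∨ (0 ∈ S ∧ S = insert 0 (sh S')) := by
  refine ⟨(range n).filter (fun s => s + 1 ∈ S), filter_subset _ _, ?_⟩
  have key : ∀ t, t + 1 ∈ S ↔ t + 1 ∈ sh ((range n).filter (fun s => s + 1 ∈ S)) := by
    intro t
    rw [succ_mem_sh, mem_filter, mem_range]
    constructor
    · intro ht
      have := mem_range.mp (h ht)
      exact ⟨by omega, ht⟩
    · exact fun ht => ht.2
  by_cases h0 : 0 ∈ S
  · right
    refine ⟨h0, ?_⟩
    ext t
    rcases t with _ | t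
    · simp [h0]
    · rw [mem_insert, ← key]
      simp
  · left
    refine ⟨h0, ?_⟩
    ext t
    rcases t with _ | t
    · simp only [h0, false_iff]
      exact zero_notMem_sh _
    · exact key t

theorem gallE (n : ℕ) : ∀ (d ε : ℕ) (S : Finset ℕ), n ≤ d → S ⊆ range n → GaleE n d ε S := by
  induction n with
  | zero =>
    intro d ε S _ hS
    have : S = ∅ := by
      rw [range_zero, subset_empty] at hS
      exact hS
    rw [this]
    exact galeE_zero d ε
  | succ n ih =>
    intro d ε S hd hS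
    obtain ⟨d, rfl⟩ : ∃ d', d = d' + 1 := ⟨d - 1, by omega⟩
    obtain ⟨S', hS', h | h⟩ := exists_sh hS
    · rw [h.2]
      rcases Nat.even_or_odd ε with hε | hε
      · exact stepA (mono (ih d ε S' (by omega) hS')) hε
      · exact stepC (ih d (ε + 1) S' (by omega) hS') hε
    · rw [h.2]
      exact stepB (ih d (ε + 1) S' (by omega) hS')

theorem gall : StGAll := by
  intro n d S hn hS
  exact gale_iff.mpr ⟨0, gallE n d 0 S hn hS⟩

end Pool.Agent.W410.KalSar
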